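import Pool.Agent.helper98.SUD.Defs2

/-!
# D3: a root with slack
-/

namespace Pool.H98.Sud

open Finset Filter
open scoped Classical Topology Nat

namespace D3

variable {V : Type*} [Fintype V]

/-- the set of vertices at distance at most `n` from `R` -/
noncomputable def nb (G : SimpleGraph V) (R : Finset V) (n : ℕ) : Finset V :=
  univ.filter (fun v => ∃ u ∈ R, v ∈ ball G u n)

theorem mem_nb {G : SimpleGraph V} {R : Finset V} {n : ℕ} {v : V} :
    v ∈ nb G R n ↔ ∃ u ∈ R, v ∈ ball G u n := by simp [nb]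

theorem mem_nb_zero {G : SimpleGraph V} {R : Finset V} {v : V} : v ∈ nb G R 0 ↔ v ∈ R := by
  rw [mem_nb]; simp [ball]

theorem mem_nb_succ {G : SimpleGraph V} {R : Finset V} {n : ℕ} {v : V} :
    v ∈ nb G R (n + 1) ↔ v ∈ nb G R n ∨ ∃ t ∈ nb G R n, G.Adj t v := by
  rw [mem_nb, mem_nb]
  constructor
  · rintro ⟨u, hu, hv⟩
    simp only [ball, Finset.mem_filter, Finset.mem_univ, true_and] at hv
    rcases hv with hv | ⟨t, ht, htv⟩
    · exact Or.inl ⟨u, hu, hv⟩
    · exact Or.inr ⟨t, mem_nb.2 ⟨u, hu, ht⟩, htv⟩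
  · rintro (⟨u, hu, hv⟩ | ⟨t, ht, htv⟩)
    · exact ⟨u, hu, by simp only [ball, Finset.mem_filter, Finset.mem_univ, true_and]; exact Or.inl hv⟩
    · obtain ⟨u, hu, htu⟩ := mem_nb.1 ht
      exact ⟨u, hu, by
        simp only [ball, Finset.mem_filter, Finset.mem_univ, true_and]; exact Or.inr ⟨t, htu, htv⟩⟩

theorem insert_connected {G : SimpleGraph V} {S : Finset V} {v t : V} (ht : t ∈ S)
    (h : G.Adj v t) (hS : (G.induce (S : Set V)).Connected) :
    (G.induce ((insert v S : Finset V) : Set V)).Connected := by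
  have h1 := SimpleGraph.induce_pair_connected_of_adj h
  have h2 := SimpleGraph.induce_union_connected hS.preconnected h1.preconnected
    ⟨t, by exact_mod_cast ht, by simp⟩
  have e : ((insert v S : Finset V) : Set V) = (S : Set V) ∪ {v, t} := by
    ext x
    simp only [Finset.coe_insert, Set.mem_insert_iff, Finset.mem_coe, Set.mem_union,
      Set.mem_singleton_iff]
    constructor
    · rintro (h | h)
      · exact Or.inr (Or.inl h)
      · exact Or.inl h
    · rintro (h | h | h)
      · exact Or.inr h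
      · exact Or.inl h
      · rw [h]; exact Or.inr ht
  rw [e]; exact h2

/-- a shortest path to `R` -/
theorem exists_path (G : SimpleGraph V) (R : Finset V)
    (hRc : (G.induce (R : Set V)).Connected) (d : V → ℕ) (h0 : ∀ v, d v = 0 → v ∈ R)
    (hs : ∀ v n, d v = n + 1 → ∃ t, G.Adj v t ∧ d t = n) :
    ∀ n v, d v = n → ∃ P : Finset V, v ∈ R ∪ P ∧ P.card ≤ n ∧
      (G.induce ((R ∪ P : Finset V) : Set V)).Connected ∧
      ∀ p ∈ P, p = v ∨ (d p + 1 ≤ d v ∧ (G.Adj v p ∨ d p + 2 ≤ d v)) := by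
  intro n
  induction n with
  | zero =>
    intro v hv
    refine ⟨∅, by simpa using h0 v hv, by simp, ?_, by simp⟩
    have : (R ∪ ∅ : Finset V) = R := by simp
    rw [this]; exact hRc
  | succ n ih =>
    intro v hv
    obtain ⟨t, hvt, ht⟩ := hs v n hv
    obtain ⟨P, h1, h2, h3, h4⟩ := ih t ht
    refine ⟨insert v P, by simp, (Finset.card_insert_le _ _).trans (by omega), ?_, ?_⟩
    · have : (R ∪ insert v P : Finset V) = insert v (R ∪ P) := by
        ext x; simp only [Finset.mem_union, Finset.mem_insert]; tauto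
      rw [this]
      exact insert_connected h1 hvt h3
    · intro p hp
      rw [Finset.mem_insert] at hp
      rcases hp with hp | hp
      · exact Or.inl hp
      · right
        rcases h4 p hp with h5 | ⟨h5, -⟩
        · subst h5; exact ⟨by omega, Or.inl hvt⟩
        · exact ⟨by omega, Or.inr (by omega)⟩

theorem fin3 : ∀ a b c d : Fin 3, a ≠ b → a ≠ c → a ≠ d → b = c ∨ b = d ∨ c = d := by decide

end D3

open D3 in
theorem D3 {V : Type*} [Fintype V] (G : SimpleGraph V) (hG : G.Connected) (h3 : Cubic G)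
    (R : Finset V) (hR : R.Nonempty) (hRc : (G.induce (R : Set V)).Connected) (s : ℕ)
    (hs : ∀ v, ∃ u ∈ R, v ∈ ball G u s) (hcard : 4 * R.card < Fintype.card V)
    (htri : ∀ u v w, G.Adj u v → G.Adj v w → G.Adj u w → u ∈ R) (c : V → Fin 3)
    (hc : ∀ v w, v ∉ R → w ∉ R → G.Adj v w → c v ≠ c w) :
    ∃ R' : Finset V, R ⊆ R' ∧ (G.induce (R' : Set V)).Connected ∧ R'.card ≤ R.card + s + 1 ∧
      ∃ w ∈ R', ∃ y z, y ≠ z ∧ G.Adj w y ∧ G.Adj w z ∧ y ∉ R' ∧ z ∉ R' ∧ c y = c z := by
  have hex : ∀ v, ∃ n, v ∈ nb G R n := fun v => ⟨s, mem_nb.2 (hs v)⟩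
  set d : V → ℕ := fun v => Nat.find (hex v) with hd
  have hds : ∀ v, d v ≤ s := fun v => Nat.find_le (mem_nb.2 (hs v))
  have hdm : ∀ v, v ∈ nb G R (d v) := fun v => Nat.find_spec (hex v)
  have hdle : ∀ v n, v ∈ nb G R n → d v ≤ n := fun v n h => Nat.find_le h
  have h0 : ∀ v, d v = 0 → v ∈ R := by
    intro v hv
    have := hdm v
    rw [hv] at this
    exact mem_nb_zero.1 this
  have hadj : ∀ v w, G.Adj v w → d w ≤ d v + 1 := fun v w h =>
    hdle _ _ (mem_nb_succ.2 (Or.inr ⟨v, hdm v, h⟩))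
  have hstep : ∀ v n, d v = n + 1 → ∃ t, G.Adj v t ∧ d t = n := by
    intro v n hv
    have h1 := hdm v
    rw [hv, mem_nb_succ] at h1
    rcases h1 with h1 | ⟨t, ht, htv⟩
    · have := hdle v n h1; omega
    · refine ⟨t, htv.symm, ?_⟩
      have e1 := hdle t n ht
      have e2 := hadj t v htv
      omega
  have hdR : ∀ v, v ∈ R → d v = 0 := by
    intro v hv
    have := hdle v 0 (mem_nb_zero.2 hv)
    omega
  -- a vertex at maximal distance
  have hne : (univ : Finset V).Nonempty := hR.mono (Finset.subset_univ _)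
  obtain ⟨w, -, hw⟩ := Finset.exists_max_image (univ : Finset V) d hne
  have hw2 : 2 ≤ d w := by
    by_contra hcon
    have hall : ∀ v, d v ≤ 1 := fun v => (hw v (Finset.mem_univ v)).trans (by omega)
    have hsub : (univ : Finset V) ⊆ R ∪ R.biUnion (fun u => univ.filter (fun v => G.Adj u v)) := by
      intro v _
      rw [Finset.mem_union, Finset.mem_biUnion]
      rcases Nat.eq_zero_or_pos (d v) with h1 | h1
      · exact Or.inl (h0 v h1)
      · right
        obtain ⟨t, ht1, ht2⟩ := hstep v 0 (by have := hall v; omega)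
        exact ⟨t, h0 t ht2, by simpa using ht1.symm⟩
    have h1 := (Finset.card_le_card hsub).trans (Finset.card_union_le _ _)
    have h2 : (R.biUnion (fun u => univ.filter (fun v => G.Adj u v))).card ≤ R.card * 3 :=
      Finset.card_biUnion_le_card_mul _ _ _ (fun u _ => (h3 u).le)
    rw [Finset.card_univ] at h1
    omega
  have hwR : w ∉ R := fun h => by have := hdR w h; omega
  have hnR : ∀ t, G.Adj w t → t ∉ R := fun t ht h => by
    have e1 := hdR t h
    have e2 := hadj t w ht.symm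
    omega
  have hnd : ∀ t, G.Adj w t → d w ≤ d t + 1 := fun t ht => hadj t w ht.symm
  have hmax : ∀ t, d t ≤ d w := fun t => hw t (Finset.mem_univ t)
  -- the construction for a given choice
  have main : ∀ x y z, y ≠ z → x ≠ y → x ≠ z → G.Adj w x → G.Adj w y → G.Adj w z → c y = c z →
      ∃ R' : Finset V, R ⊆ R' ∧ (G.induce (R' : Set V)).Connected ∧ R'.card ≤ R.card + s + 1 ∧
      ∃ w ∈ R', ∃ y z, y ≠ z ∧ G.Adj w y ∧ G.Adj w z ∧ y ∉ R' ∧ z ∉ R' ∧ c y = c z := by
    intro x y z hyz hxy hxz hwx hwy hwz hcyz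
    obtain ⟨P, p1, p2, p3, p4⟩ := exists_path G R hRc d h0 hstep (d x) x rfl
    have hno : ∀ t, G.Adj w t → x ≠ t → t ∉ insert w (R ∪ P) := by
      intro t hwt hxt hmem
      rw [Finset.mem_insert, Finset.mem_union] at hmem
      rcases hmem with h | h | h
      · rw [h] at hwt; exact G.loopless.irrefl _ hwt
      · exact hnR t hwt h
      · rcases p4 t h with h5 | ⟨-, h5 | h5⟩
        · exact hxt h5.symm
        · exact hwR (htri w x t hwx h5 hwt)
        · have e1 := hmax x
          have e2 := hnd t hwt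
          omega
    refine ⟨insert w (R ∪ P), ?_, insert_connected p1 hwx p3, ?_, w, Finset.mem_insert_self _ _,
      y, z, hyz, hwy, hwz, hno y hwy hxy, hno z hwz hxz, hcyz⟩
    · exact Finset.subset_union_left.trans (Finset.subset_insert _ _)
    · have e1 := Finset.card_insert_le w (R ∪ P)
      have e2 := Finset.card_union_le R P
      have e3 := hds x
      omega
  have hcw := h3 w
  rw [Finset.card_eq_three] at hcw
  obtain ⟨x, y, z, hxy, hxz, hyz, hset⟩ := hcw
  have hmem : ∀ t, G.Adj w t ↔ t = x ∨ t = y ∨ t = z := by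
    intro t
    have : t ∈ univ.filter (fun v => G.Adj w v) ↔ t ∈ ({x, y, z} : Finset V) := by rw [hset]
    simpa using this
  have ax := (hmem x).2 (Or.inl rfl)
  have ay := (hmem y).2 (Or.inr (Or.inl rfl))
  have az := (hmem z).2 (Or.inr (Or.inr rfl))
  rcases fin3 (c w) (c x) (c y) (c z) (hc w x hwR (hnR x ax) ax) (hc w y hwR (hnR y ay) ay)
    (hc w z hwR (hnR z az) az) with h | h | h
  · exact main z x y hxy hxz.symm hyz.symm az ax ay h
  · exact main y x z hxz hxy.symm hyz ay ax az h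
  · exact main x y z hyz hxy hxz ax ay az h

end Pool.H98.Sud
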