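import Pool.Agent.helper98.SUD.Defs2

/-!
# D5: the set is a Sudoku set
-/

namespace Pool.H98.Sud

open Finset Filter
open scoped Classical Topology Nat

namespace D5

/-- a self-map of a finite type with `f v → v` on a set gives a directed cycle -/
theorem exists_cycle {V : Type*} [Fintype V] {G : SimpleGraph V} (T : Typing G) (W : Finset V)
    (B : Finset V) (hB : B.Nonempty) (hBW : B ⊆ W)
    (h : ∀ v ∈ B, ∃ a ∈ B, G.Adj a v ∧ T.out a v) : ∃ k u, T.DirCycle W k u := by
  choose! f hfB hfA hfO using h
  obtain ⟨x0, hx0⟩ := hB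
  have hit : ∀ n, f^[n] x0 ∈ B := by
    intro n
    induction n with
    | zero => exact hx0
    | succ n ih => rw [Function.iterate_succ_apply']; exact hfB _ ih
  obtain ⟨i, j, hij, he⟩ := Finite.exists_ne_map_eq_of_infinite (fun n : ℕ => f^[n] x0)
  wlog hlt : i < j generalizing i j
  · exact this j i hij.symm he.symm (by omega)
  set x := f^[i] x0 with hx
  have hper : Function.IsPeriodicPt f (j - i) x := by
    show f^[j - i] x = x
    rw [hx, ← Function.iterate_add_apply, Nat.sub_add_cancel hlt.le]
    exact he.symm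
  have hpos : 0 < Function.minimalPeriod f x :=
    Function.minimalPeriod_pos_of_mem_periodicPts ⟨j - i, by omega, hper⟩
  have hitx : ∀ n, f^[n] x ∈ B := by
    intro n; rw [hx, ← Function.iterate_add_apply]; exact hit _
  set k := Function.minimalPeriod f x with hk
  have hinj := Function.iterate_injOn_Iio_minimalPeriod (f := f) (x := x)
  have hkx : f^[k] x = x := Function.iterate_minimalPeriod
  refine ⟨k, fun i => f^[k - 1 - i] x, hpos, ?_, ?_, ?_, ?_, ?_⟩
  · intro i _; exact hBW (hitx _)
  · intro i hi j hj hij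
    have := hinj (show k - 1 - i < k by omega) (show k - 1 - j < k by omega) hij
    omega
  · intro i hi
    have e : f^[k - 1 - i] x = f (f^[k - 1 - (i + 1)] x) := by
      rw [← Function.iterate_succ_apply' f]; congr 2; omega
    simp only [e]
    exact ⟨hfA _ (hitx _), hfO _ (hitx _)⟩
  · have e1 : k - 1 - (k - 1) = 0 := by omega
    have e2 : f (f^[k - 1 - 0] x) = x := by
      rw [← Function.iterate_succ_apply' f]
      have : (k - 1 - 0).succ = k := by omega
      rw [this, hkx]
    show G.Adj (f^[k - 1 - (k - 1)] x) (f^[k - 1 - 0] x)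
    rw [e1]
    show G.Adj x _
    conv_lhs => rw [← e2]
    exact hfA _ (hitx _)
  · have e1 : k - 1 - (k - 1) = 0 := by omega
    have e2 : f (f^[k - 1 - 0] x) = x := by
      rw [← Function.iterate_succ_apply' f]
      have : (k - 1 - 0).succ = k := by omega
      rw [this, hkx]
    show T.out (f^[k - 1 - (k - 1)] x) (f^[k - 1 - 0] x)
    rw [e1]
    show T.out x _
    have h3 := hfO _ (hitx (k - 1 - 0))
    rw [e2] at h3
    exact h3

theorem fin3 : ∀ a b c d : Fin 3, a ≠ b → c ≠ a → c ≠ b → d ≠ a → d ≠ b → d = c := by decide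

end D5

open D5 in
theorem D5 {V : Type*} [Fintype V] (G : SimpleGraph V) (h3 : Cubic G) (hchi : chi G = 3)
    (T : Typing G) (R Y : Finset V) (hbad : ∀ v, T.Bad v → v ∈ R) (c' : V → Fin 3)
    (hp : ∀ v w, G.Adj v w → c' v ≠ c' w)
    (hc' : ∀ v, v ∉ R → ∀ w, G.Adj v w → T.out v w → c' v = T.lab v w)
    (hY : ∀ k u, ¬ T.DirCycle ((univ.filter (fun v => T.Rainbow v)) \ Y) k u) :
    IsSudoku G (R ∪ univ.filter (fun v => ∃ u ∈ R, G.Adj u v) ∪
      univ.filter (fun v => T.Source v) ∪ Y) := by
  set S := R ∪ univ.filter (fun v => ∃ u ∈ R, G.Adj u v) ∪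
      univ.filter (fun v => T.Source v) ∪ Y with hS
  -- the colouring
  let e : Fin 3 ≃ Fin (chi G) := finCongr hchi.symm
  have key : ∀ C : V → Fin 3, (∀ v w, G.Adj v w → C v ≠ C w) → (∀ v ∈ S, C v = c' v) → C = c' := by
    intro C hC hCS
    by_contra hne
    have hB : (univ.filter (fun v => C v ≠ c' v)).Nonempty := by
      by_contra hem
      rw [Finset.not_nonempty_iff_eq_empty, Finset.filter_eq_empty_iff] at hem
      apply hne; funext v
      by_contra hv
      exact hem (Finset.mem_univ v) hv
    have hnS : ∀ v, C v ≠ c' v → v ∉ S := fun v hv hvS => hv (hCS v hvS)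
    have hinfo : ∀ v, v ∉ S → v ∉ R ∧ (∀ u, G.Adj u v → u ∉ R) ∧ T.Rainbow v ∧ v ∉ Y := by
      intro v hv
      simp only [hS, Finset.mem_union, Finset.mem_filter, Finset.mem_univ, true_and, not_or,
        not_exists, not_and] at hv
      obtain ⟨⟨⟨h1, h2⟩, h4⟩, h5⟩ := hv
      refine ⟨h1, fun u hu huR => h2 u huR hu, ?_, h5⟩
      by_contra h6
      exact h1 (hbad v ⟨h4, h6⟩)
    obtain ⟨k, u, hku⟩ := exists_cycle T ((univ.filter (fun v => T.Rainbow v)) \ Y) _ hB
      (by
        intro v hv
        rw [Finset.mem_filter] at hv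
        obtain ⟨-, -, h6, h7⟩ := hinfo v (hnS v hv.2)
        simp [h6, h7])
      (by
        intro v hv
        rw [Finset.mem_filter] at hv
        obtain ⟨h1, h2, h6, h7⟩ := hinfo v (hnS v hv.2)
        by_contra hcon
        push Not at hcon
        -- all in-neighbours have the right colour
        have hin : ∀ a, G.Adj a v → T.out a v → C a = c' a := by
          intro a ha hao
          by_contra hca
          exact hcon a (by simp [hca]) ha hao
        obtain ⟨⟨w, ⟨hw1, hw2⟩, hw3⟩, hinj⟩ := h6
        have hc := h3 v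
        rw [Finset.card_eq_three] at hc
        obtain ⟨x, y, z, hxy, hxz, hyz, hset⟩ := hc
        have hmem : ∀ t, G.Adj v t ↔ t = x ∨ t = y ∨ t = z := by
          intro t
          have : t ∈ univ.filter (fun w => G.Adj v w) ↔ t ∈ ({x, y, z} : Finset V) := by rw [hset]
          simpa using this
        -- two in-neighbours
        have two : ∃ a b, a ≠ b ∧ G.Adj v a ∧ G.Adj v b ∧ ¬ T.out v a ∧ ¬ T.out v b := by
          have hno : ∀ t, G.Adj v t → t ≠ w → ¬ T.out v t := fun t ht htw ho => htw (hw3 t ⟨ht, ho⟩)
          have ax := (hmem x).2 (Or.inl rfl)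
          have ay := (hmem y).2 (Or.inr (Or.inl rfl))
          have az := (hmem z).2 (Or.inr (Or.inr rfl))
          by_cases hx : x = w
          · exact ⟨y, z, hyz, ay, az, hno y ay (by rw [← hx]; exact hxy.symm),
              hno z az (by rw [← hx]; exact hxz.symm)⟩
          · by_cases hy : y = w
            · exact ⟨x, z, hxz, ax, az, hno x ax hx, hno z az (by rw [← hy]; exact hyz.symm)⟩
            · exact ⟨x, y, hxy, ax, ay, hno x ax hx, hno y ay hy⟩
        obtain ⟨a, b, hab, haA, hbA, hao, hbo⟩ := two
        have hao' : T.out a v := (T.out_or v a haA).resolve_left hao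
        have hbo' : T.out b v := (T.out_or v b hbA).resolve_left hbo
        have ea : c' a = T.lab a v := hc' a (h2 a haA.symm) v haA.symm hao'
        have eb : c' b = T.lab b v := hc' b (h2 b hbA.symm) v hbA.symm hbo'
        have hne2 : c' a ≠ c' b := by
          intro he
          rw [ea, eb, ← T.lab_symm v a haA, ← T.lab_symm v b hbA] at he
          exact hab (hinj a b haA hbA he)
        have ca := hin a haA.symm hao'
        have cb := hin b hbA.symm hbo'
        apply hv.2
        exact fin3 (c' a) (c' b) (c' v) (C v) hne2 (hp v a haA) (hp v b hbA)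
          (by rw [← ca]; exact hC v a haA) (by rw [← cb]; exact hC v b hbA))
    exact hY k u hku
  refine ⟨SimpleGraph.Coloring.mk (fun v => e (c' v)) ?_, ?_⟩
  · intro v w hvw hh
    exact hp v w hvw (e.injective hh)
  · refine ⟨SimpleGraph.Coloring.mk (fun v => e (c' v)) ?_, ?_, ?_⟩
    · intro v w hvw hh
      exact hp v w hvw (e.injective hh)
    · intro v; rfl
    · intro C hC
      have hk := key (fun v => e.symm (C v)) (fun v w hvw hh => C.valid hvw (e.symm.injective hh))
        (fun v hv => by
          have := hC ⟨v, hv⟩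
          show e.symm (C v) = c' v
          rw [Equiv.symm_apply_eq]
          exact this)
      ext v
      have h1 : e.symm (C v) = c' v := congrFun hk v
      rw [Equiv.symm_apply_eq] at h1
      rw [h1]
      rfl

end Pool.H98.Sud
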